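import Mathlib

/-!
Definitions for the series attached to the density of the supremum of a stable process.
-/

set_option autoImplicit false

namespace Pool.Agent.Lib.MP_8ec8f8_pr

/-- The coefficient `a_{m,n}` of the problem. -/
noncomputable def aCoeff (α ρ : ℝ) (m n : ℕ) : ℝ :=
  (-1) ^ (m + n) /
      (Real.Gamma (1 - ρ - n - m / α) * Real.Gamma (α * ρ + m + α * n)) *
    (∏ j ∈ Finset.Icc 1 m,
      Real.sin (Real.pi / α * (α * ρ + j - 1)) / Real.sin (Real.pi * j / α)) *
    (∏ j ∈ Finset.Icc 1 n,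
      Real.sin (Real.pi * α * (ρ + j - 1)) / Real.sin (Real.pi * α * j))

/-- The coefficient `b_{m,n}` of the problem. -/
noncomputable def bCoeff (α ρ : ℝ) (m n : ℕ) : ℝ :=
  Real.Gamma (1 - ρ - n - m / α) * Real.Gamma (α * ρ + m + α * n) /
      (Real.Gamma (1 + n + m / α) * Real.Gamma (-m - α * n)) * aCoeff α ρ m n

/-- The `(m,n)`-th term, at the point `x`, of the double series attached to `(α, ρ)`:
`x^(-1-α) b_{m,n+1} x^(-m-α n)` if `α < 1` and `x^(αρ-1) a_{m,n} x^(m+α n)` otherwise. -/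
noncomputable def seriesTerm (α ρ x : ℝ) (m n : ℕ) : ℝ :=
  if α < 1 then x ^ (-1 - α) * (bCoeff α ρ m (n + 1) * x ^ (-(m : ℝ) - α * n))
  else x ^ (α * ρ - 1) * (aCoeff α ρ m n * x ^ ((m : ℝ) + α * n))

/-- The series converges absolutely at `(α, ρ)`: for every `x > 0` the double sum of the
absolute values of its terms is finite. -/
def ConvergesAbsolutely (α ρ : ℝ) : Prop :=
  ∀ x : ℝ, 0 < x → Summable fun p : ℕ × ℕ => |seriesTerm α ρ x p.1 p.2|

/-- The set of `ρ ∈ (0,1)` at which the series converges absolutely. -/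
def convSet (α : ℝ) : Set ℝ := {ρ | ρ ∈ Set.Ioo (0 : ℝ) 1 ∧ ConvergesAbsolutely α ρ}

end Pool.Agent.Lib.MP_8ec8f8_pr
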