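import Mathlib
import Pool.Agent.Lib.MP_8ec8f8_pr.Defs

/-!
Closed forms of the absolute values of the coefficients, and how they change under
`ρ ↦ ρ + 1/α` and `ρ ↦ ρ - 1`.
-/

set_option autoImplicit false

open Real

namespace Pool.Agent.Lib.MP_8ec8f8_pr

noncomputable def S1 (α ρ : ℝ) (m : ℕ) : ℝ := ∏ j ∈ Finset.range m, |sin (π * (ρ + j / α))|
noncomputable def S2 (α ρ : ℝ) (n : ℕ) : ℝ := ∏ j ∈ Finset.range n, |sin (π * (α * (ρ + j)))|
noncomputable def D (α : ℝ) (m n : ℕ) : ℝ :=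
  (∏ j ∈ Finset.range m, |sin (π * ((j + 1) / α))|)⁻¹ *
    (∏ j ∈ Finset.range n, |sin (π * (α * (j + 1)))|)⁻¹

lemma S1_nonneg (α ρ : ℝ) (m : ℕ) : 0 ≤ S1 α ρ m := Finset.prod_nonneg fun _ _ => abs_nonneg _
lemma S2_nonneg (α ρ : ℝ) (m : ℕ) : 0 ≤ S2 α ρ m := Finset.prod_nonneg fun _ _ => abs_nonneg _
lemma D_nonneg (α : ℝ) (m n : ℕ) : 0 ≤ D α m n :=
  mul_nonneg (inv_nonneg.2 (Finset.prod_nonneg fun _ _ => abs_nonneg _))
    (inv_nonneg.2 (Finset.prod_nonneg fun _ _ => abs_nonneg _))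

lemma prod_Icc_one (f : ℕ → ℝ) (n : ℕ) :
    ∏ j ∈ Finset.Icc 1 n, f j = ∏ j ∈ Finset.range n, f (j + 1) := by
  induction n with
  | zero => simp
  | succ k ih => rw [Finset.prod_Icc_succ_top (by omega), ih, Finset.prod_range_succ]

lemma S1_add {α ρ : ℝ} (m : ℕ) :
    S1 α (ρ + 1 / α) m * |sin (π * ρ)| = S1 α ρ m * |sin (π * (ρ + m / α))| := by
  have h1 : S1 α ρ (m + 1) = S1 α ρ m * |sin (π * (ρ + m / α))| :=
    Finset.prod_range_succ _ _
  have h2 : S1 α ρ (m + 1) =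
      (∏ j ∈ Finset.range m, |sin (π * (ρ + ((j + 1 : ℕ) : ℝ) / α))|) *
        |sin (π * (ρ + ((0 : ℕ) : ℝ) / α))| := Finset.prod_range_succ' _ _
  rw [← h1, h2]
  congr 1
  · unfold S1
    apply Finset.prod_congr rfl
    intro j _
    congr 3
    push_cast
    ring
  · simp

lemma S1_sub_one {α ρ : ℝ} (m : ℕ) : S1 α (ρ - 1) m = S1 α ρ m := by
  unfold S1
  apply Finset.prod_congr rfl
  intro j _
  have : π * (ρ - 1 + j / α) = π * (ρ + j / α) - π := by ring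
  rw [this, Real.sin_sub_pi, abs_neg]

lemma S2_add {α ρ : ℝ} (hα : α ≠ 0) (n : ℕ) : S2 α (ρ + 1 / α) n = S2 α ρ n := by
  unfold S2
  apply Finset.prod_congr rfl
  intro j _
  have : π * (α * (ρ + 1 / α + j)) = π * (α * (ρ + j)) + π := by
    field_simp
    ring
  rw [this, Real.sin_add_pi, abs_neg]

lemma S2_sub_one {α ρ : ℝ} (n : ℕ) :
    S2 α (ρ - 1) n * |sin (π * (α * (ρ - 1 + n)))| = S2 α ρ n * |sin (π * (α * (ρ - 1)))| := by
  have h1 : S2 α (ρ - 1) (n + 1) = S2 α (ρ - 1) n * |sin (π * (α * (ρ - 1 + n)))| :=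
    Finset.prod_range_succ _ _
  have h2 : S2 α (ρ - 1) (n + 1) =
      (∏ j ∈ Finset.range n, |sin (π * (α * (ρ - 1 + ((j + 1 : ℕ) : ℝ))))|) *
        |sin (π * (α * (ρ - 1 + ((0 : ℕ) : ℝ))))| := Finset.prod_range_succ' _ _
  rw [← h1, h2]
  congr 1
  · unfold S2
    apply Finset.prod_congr rfl
    intro j _
    congr 4
    push_cast
    ring
  · simp

lemma inv_Gamma_one_sub {z : ℝ} (hz : 0 < z) :
    (Gamma (1 - z))⁻¹ = sin (π * z) * Gamma z / π := by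
  have h := Real.Gamma_mul_Gamma_one_sub z
  have hG : Gamma z ≠ 0 := (Gamma_pos_of_pos hz).ne'
  by_cases hs : sin (π * z) = 0
  · rw [hs, div_zero] at h
    have : Gamma (1 - z) = 0 := by
      rcases mul_eq_zero.1 h with h | h
      · exact absurd h hG
      · exact h
    rw [this, hs]
    simp
  · have : Gamma (1 - z) = π / sin (π * z) / Gamma z := by
      rw [← h]
      field_simp
    rw [this]
    have := Real.pi_ne_zero
    field_simp

/-- product of sines occurring in the coefficients -/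
lemma prods_eq (α ρ : ℝ) (hα : α ≠ 0) (m n : ℕ) :
    |(∏ j ∈ Finset.Icc 1 m,
      Real.sin (Real.pi / α * (α * ρ + j - 1)) / Real.sin (Real.pi * j / α))| *
    |(∏ j ∈ Finset.Icc 1 n,
      Real.sin (Real.pi * α * (ρ + j - 1)) / Real.sin (Real.pi * α * j))| =
    S1 α ρ m * S2 α ρ n * D α m n := by
  rw [prod_Icc_one, prod_Icc_one, Finset.abs_prod, Finset.abs_prod]
  have e1 : ∏ j ∈ Finset.range m, |Real.sin (Real.pi / α * (α * ρ + ((j + 1 : ℕ) : ℝ) - 1)) /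
      Real.sin (Real.pi * ((j + 1 : ℕ) : ℝ) / α)| =
      S1 α ρ m * (∏ j ∈ Finset.range m, |sin (π * ((j + 1) / α))|)⁻¹ := by
    unfold S1
    rw [← Finset.prod_inv_distrib, ← Finset.prod_mul_distrib]
    apply Finset.prod_congr rfl
    intro j _
    have h1 : Real.pi / α * (α * ρ + ((j + 1 : ℕ) : ℝ) - 1) = π * (ρ + j / α) := by
      push_cast
      field_simp
      ring
    have h2 : Real.pi * ((j + 1 : ℕ) : ℝ) / α = π * ((j + 1) / α) := by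
      push_cast
      ring
    rw [abs_div, div_eq_mul_inv, h1, h2]
  have e2 : ∏ j ∈ Finset.range n, |Real.sin (Real.pi * α * (ρ + ((j + 1 : ℕ) : ℝ) - 1)) /
      Real.sin (Real.pi * α * ((j + 1 : ℕ) : ℝ))| =
      S2 α ρ n * (∏ j ∈ Finset.range n, |sin (π * (α * (j + 1)))|)⁻¹ := by
    unfold S2
    rw [← Finset.prod_inv_distrib, ← Finset.prod_mul_distrib]
    apply Finset.prod_congr rfl
    intro j _
    have h1 : Real.pi * α * (ρ + ((j + 1 : ℕ) : ℝ) - 1) = π * (α * (ρ + j)) := by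
      push_cast
      ring
    have h2 : Real.pi * α * ((j + 1 : ℕ) : ℝ) = π * (α * (j + 1)) := by
      push_cast
      ring
    rw [abs_div, div_eq_mul_inv, h1, h2]
  rw [e1, e2]
  unfold D
  ring

lemma abs_aCoeff {α ρ : ℝ} (hα : 0 < α) (hρ : 0 < ρ) (m n : ℕ) :
    |aCoeff α ρ m n| =
      Gamma (ρ + n + m / α) / Gamma (α * (ρ + n + m / α)) / π *
        S1 α ρ (m + 1) * S2 α ρ n * D α m n := by
  have hz : 0 < ρ + n + m / α := by positivity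
  have hαz : α * ρ + m + α * n = α * (ρ + n + m / α) := by field_simp; ring
  have h1z : 1 - ρ - n - m / α = 1 - (ρ + n + m / α) := by ring
  unfold aCoeff
  rw [abs_mul, abs_mul, mul_assoc, prods_eq α ρ hα.ne', hαz, h1z]
  have hG : 0 < Gamma (α * (ρ + n + m / α)) := Gamma_pos_of_pos (by positivity)
  have hG' : 0 < Gamma (ρ + n + m / α) := Gamma_pos_of_pos (by positivity)
  have e : |(-1 : ℝ) ^ (m + n) / (Gamma (1 - (ρ + n + m / α)) * Gamma (α * (ρ + n + m / α)))| =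
      Gamma (ρ + n + m / α) / Gamma (α * (ρ + n + m / α)) / π * |sin (π * (ρ + n + m / α))| := by
    rw [div_eq_mul_inv, mul_inv, inv_Gamma_one_sub hz, abs_mul, abs_mul, abs_div, abs_mul,
      abs_pow, abs_neg, abs_one, one_pow, one_mul, abs_of_pos Real.pi_pos, abs_of_pos hG',
      abs_of_pos (inv_pos.2 hG)]
    ring
  rw [e]
  have hs : |sin (π * (ρ + n + m / α))| = |sin (π * (ρ + m / α))| := by
    have : π * (ρ + n + m / α) = π * (ρ + m / α) + n * π := by ring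
    rw [this, Real.sin_add_nat_mul_pi, abs_mul, abs_pow, abs_neg, abs_one, one_pow, one_mul]
  rw [hs]
  have : S1 α ρ (m + 1) = S1 α ρ m * |sin (π * (ρ + m / α))| := Finset.prod_range_succ _ _
  rw [this]
  ring

lemma abs_bCoeff {α ρ : ℝ} (hα : 0 < α) (hρ : 0 < ρ) (m n : ℕ)
    (h : Gamma (1 - ρ - n - m / α) ≠ 0) :
    |bCoeff α ρ m n| =
      |(Gamma (1 + n + m / α) * Gamma (-m - α * n))⁻¹| * S1 α ρ m * S2 α ρ n * D α m n := by
  unfold bCoeff aCoeff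
  have hG : Gamma (α * ρ + m + α * n) ≠ 0 := (Gamma_pos_of_pos (by positivity)).ne'
  have e : Gamma (1 - ρ - n - m / α) * Gamma (α * ρ + m + α * n) /
      (Gamma (1 + n + m / α) * Gamma (-m - α * n)) *
      ((-1) ^ (m + n) /
      (Real.Gamma (1 - ρ - n - m / α) * Real.Gamma (α * ρ + m + α * n)) *
    (∏ j ∈ Finset.Icc 1 m,
      Real.sin (Real.pi / α * (α * ρ + j - 1)) / Real.sin (Real.pi * j / α)) *
    (∏ j ∈ Finset.Icc 1 n,
      Real.sin (Real.pi * α * (ρ + j - 1)) / Real.sin (Real.pi * α * j))) =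
      (Gamma (1 + n + m / α) * Gamma (-m - α * n))⁻¹ * (-1) ^ (m + n) *
    (∏ j ∈ Finset.Icc 1 m,
      Real.sin (Real.pi / α * (α * ρ + j - 1)) / Real.sin (Real.pi * j / α)) *
    (∏ j ∈ Finset.Icc 1 n,
      Real.sin (Real.pi * α * (ρ + j - 1)) / Real.sin (Real.pi * α * j)) := by
    have h2 : Gamma (1 - ρ - n - m / α) * Gamma (α * ρ + m + α * n) ≠ 0 := mul_ne_zero h hG
    set X := Gamma (1 - ρ - n - m / α) * Gamma (α * ρ + m + α * n) with hX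
    rw [div_eq_mul_inv X, div_eq_mul_inv _ X]
    have : X * X⁻¹ = 1 := mul_inv_cancel₀ h2
    linear_combination ((Gamma (1 + n + m / α) * Gamma (-m - α * n))⁻¹ * (-1) ^ (m + n) *
    (∏ j ∈ Finset.Icc 1 m,
      Real.sin (Real.pi / α * (α * ρ + j - 1)) / Real.sin (Real.pi * j / α)) *
    (∏ j ∈ Finset.Icc 1 n,
      Real.sin (Real.pi * α * (ρ + j - 1)) / Real.sin (Real.pi * α * j))) * this
  rw [e, abs_mul, abs_mul, abs_mul, abs_pow, abs_neg, abs_one, one_pow, mul_one, mul_assoc,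
    prods_eq α ρ hα.ne']
  ring

lemma Gamma_add_le {z θ : ℝ} (hz : 0 < z) (h0 : 0 < θ) (h1 : θ < 1) :
    Gamma (z + θ) ≤ z ^ θ * Gamma z := by
  have h := Real.Gamma_mul_add_mul_le_rpow_Gamma_mul_rpow_Gamma (s := z) (t := z + 1)
    (a := 1 - θ) (b := θ) hz (by linarith) (by linarith) h0 (by ring)
  have e : (1 - θ) * z + θ * (z + 1) = z + θ := by ring
  rw [e, Real.Gamma_add_one hz.ne', Real.mul_rpow hz.le (Gamma_pos_of_pos hz).le] at h
  calc Gamma (z + θ) ≤ Gamma z ^ (1 - θ) * (z ^ θ * Gamma z ^ θ) := h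
    _ = z ^ θ * (Gamma z ^ (1 - θ) * Gamma z ^ θ) := by ring
    _ = z ^ θ * Gamma z := by
      rw [← Real.rpow_add (Gamma_pos_of_pos hz)]
      simp

lemma rpow_le_one_add {z θ : ℝ} (hz : 0 < z) (h0 : 0 < θ) (h1 : θ < 1) : z ^ θ ≤ 1 + z := by
  rcases le_total z 1 with h | h
  · have := Real.rpow_le_one hz.le h h0.le
    linarith
  · have := Real.rpow_le_rpow_of_exponent_le h h1.le
    rw [Real.rpow_one] at this
    linarith

/-- `ρ` is good: the sines `sin (π α (ρ - 1 + n))` are not too small. -/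
def Good (α ρ : ℝ) : Prop :=
  ∃ c : ℝ, 0 < c ∧ ∀ n : ℕ, c / ((n : ℝ) + 1) ^ 2 ≤ |sin (π * (α * (ρ - 1 + n)))|

lemma S1_add_le {α ρ : ℝ} (hs : sin (π * ρ) ≠ 0) (m : ℕ) :
    S1 α (ρ + 1 / α) m ≤ |sin (π * ρ)|⁻¹ * S1 α ρ m := by
  have h := S1_add (α := α) (ρ := ρ) m
  have hp : 0 < |sin (π * ρ)| := abs_pos.2 hs
  rw [inv_mul_eq_div, le_div_iff₀ hp, h]
  calc S1 α ρ m * |sin (π * (ρ + m / α))| ≤ S1 α ρ m * 1 :=
        mul_le_mul_of_nonneg_left (Real.abs_sin_le_one _) (S1_nonneg _ _ _)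
    _ = _ := mul_one _

lemma S2_sub_le {α ρ c : ℝ} (hc : 0 < c)
    (h : ∀ n : ℕ, c / ((n : ℝ) + 1) ^ 2 ≤ |sin (π * (α * (ρ - 1 + n)))|) (n : ℕ) :
    S2 α (ρ - 1) n ≤ c⁻¹ * ((n : ℝ) + 1) ^ 2 * S2 α ρ n := by
  have h1 := S2_sub_one (α := α) (ρ := ρ) n
  have h2 : S2 α (ρ - 1) n * (c / ((n : ℝ) + 1) ^ 2) ≤ S2 α ρ n := by
    calc S2 α (ρ - 1) n * (c / ((n : ℝ) + 1) ^ 2)
        ≤ S2 α (ρ - 1) n * |sin (π * (α * (ρ - 1 + n)))| :=
          mul_le_mul_of_nonneg_left (h n) (S2_nonneg _ _ _)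
      _ = S2 α ρ n * |sin (π * (α * (ρ - 1)))| := h1
      _ ≤ S2 α ρ n * 1 := mul_le_mul_of_nonneg_left (Real.abs_sin_le_one _) (S2_nonneg _ _ _)
      _ = _ := mul_one _
  have h3 : 0 < c / ((n : ℝ) + 1) ^ 2 := by positivity
  rw [← le_div_iff₀ h3] at h2
  calc S2 α (ρ - 1) n ≤ S2 α ρ n / (c / ((n : ℝ) + 1) ^ 2) := h2
    _ = c⁻¹ * ((n : ℝ) + 1) ^ 2 * S2 α ρ n := by field_simp

/-- closed form (case `α > 1`) -/
noncomputable def TA (α ρ : ℝ) (m n : ℕ) : ℝ :=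
  Gamma (ρ + n + m / α) / Gamma (α * (ρ + n + m / α)) / π *
        S1 α ρ (m + 1) * S2 α ρ n * D α m n

/-- closed form (case `α < 1`) -/
noncomputable def TB (α ρ : ℝ) (m n : ℕ) : ℝ :=
  |(Gamma (1 + (n + 1 : ℕ) + m / α) * Gamma (-m - α * (n + 1 : ℕ)))⁻¹| *
    S1 α ρ m * S2 α ρ (n + 1) * D α m (n + 1)

lemma TA_nonneg {α ρ : ℝ} (hα : 0 < α) (hρ : 0 < ρ) (m n : ℕ) : 0 ≤ TA α ρ m n := by
  unfold TA
  have h1 : 0 < Gamma (ρ + n + m / α) := Gamma_pos_of_pos (by positivity)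
  have h2 : 0 < Gamma (α * (ρ + n + m / α)) := Gamma_pos_of_pos (by positivity)
  have := S1_nonneg α ρ (m + 1)
  have := S2_nonneg α ρ n
  have := D_nonneg α m n
  positivity

lemma TB_nonneg (α ρ : ℝ) (m n : ℕ) : 0 ≤ TB α ρ m n := by
  unfold TB
  have := S1_nonneg α ρ m
  have := S2_nonneg α ρ (n + 1)
  have := D_nonneg α m (n + 1)
  positivity

lemma TB_add {α ρ : ℝ} (hα : α ≠ 0) (hs : sin (π * ρ) ≠ 0) (m n : ℕ) :
    TB α (ρ + 1 / α) m n ≤ |sin (π * ρ)|⁻¹ * TB α ρ m n := by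
  unfold TB
  rw [S2_add hα]
  have h := S1_add_le (α := α) hs m
  have := S2_nonneg α ρ (n + 1)
  have := D_nonneg α m (n + 1)
  calc _ ≤ |(Gamma (1 + (n + 1 : ℕ) + m / α) * Gamma (-m - α * (n + 1 : ℕ)))⁻¹| *
        (|sin (π * ρ)|⁻¹ * S1 α ρ m) * S2 α ρ (n + 1) * D α m (n + 1) := by gcongr
    _ = _ := by ring

lemma TB_sub {α ρ c : ℝ} (hc : 0 < c)
    (h : ∀ n : ℕ, c / ((n : ℝ) + 1) ^ 2 ≤ |sin (π * (α * (ρ - 1 + n)))|) (m n : ℕ) :
    TB α (ρ - 1) m n ≤ (4 * c⁻¹) * ((m : ℝ) + n + 1) ^ 4 * TB α ρ m n := by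
  unfold TB
  rw [S1_sub_one]
  have h2 := S2_sub_le hc h (n + 1)
  have h1 := S1_nonneg α ρ m
  have h3 := S2_nonneg α ρ (n + 1)
  have h4 := D_nonneg α m (n + 1)
  have h5 : (((n + 1 : ℕ) : ℝ) + 1) ^ 2 ≤ 4 * ((m : ℝ) + n + 1) ^ 4 := by
    have hm : (0 : ℝ) ≤ m := by positivity
    have hn : (0 : ℝ) ≤ n := by positivity
    push_cast
    have e1 : (1 : ℝ) ≤ (m : ℝ) + n + 1 := by linarith
    have e2 : ((m : ℝ) + n + 1) ^ 2 ≤ ((m : ℝ) + n + 1) ^ 4 :=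
      pow_le_pow_right₀ e1 (by norm_num)
    have e3 : ((n : ℝ) + 1 + 1) ≤ 2 * ((m : ℝ) + n + 1) := by linarith
    have e4 : ((n : ℝ) + 1 + 1) ^ 2 ≤ (2 * ((m : ℝ) + n + 1)) ^ 2 :=
      pow_le_pow_left₀ (by linarith) e3 2
    nlinarith
  calc _ ≤ |(Gamma (1 + (n + 1 : ℕ) + m / α) * Gamma (-m - α * (n + 1 : ℕ)))⁻¹| *
        S1 α ρ m * (c⁻¹ * (((n + 1 : ℕ) : ℝ) + 1) ^ 2 * S2 α ρ (n + 1)) * D α m (n + 1) := by gcongr
    _ ≤ |(Gamma (1 + (n + 1 : ℕ) + m / α) * Gamma (-m - α * (n + 1 : ℕ)))⁻¹| *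
        S1 α ρ m * (c⁻¹ * (4 * ((m : ℝ) + n + 1) ^ 4) * S2 α ρ (n + 1)) * D α m (n + 1) := by gcongr
    _ = _ := by ring

lemma TA_add {α ρ : ℝ} (hα : 1 < α) (hρ : 0 < ρ) (hs : sin (π * ρ) ≠ 0) (m n : ℕ) :
    TA α (ρ + 1 / α) m n ≤ ((1 / ρ + 1) / α * |sin (π * ρ)|⁻¹) * TA α ρ m n := by
  have hα0 : 0 < α := by linarith
  have hm : (0 : ℝ) ≤ m := by positivity
  have hn : (0 : ℝ) ≤ n := by positivity
  have hmα : 0 ≤ (m : ℝ) / α := by positivity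
  have hz : 0 < ρ + n + m / α := by positivity
  unfold TA
  rw [S2_add hα0.ne']
  have hz' : ρ + 1 / α + n + m / α = (ρ + n + m / α) + 1 / α := by ring
  have hαz' : α * (ρ + 1 / α + n + m / α) = α * (ρ + n + m / α) + 1 := by
    field_simp
    ring
  rw [hαz', hz']
  set z := ρ + n + m / α with hzdef
  have hθ1 : 1 / α < 1 := by rw [div_lt_one hα0]; exact hα
  have hθ0 : 0 < 1 / α := by positivity
  have hG := Gamma_add_le hz hθ0 hθ1
  have hr := rpow_le_one_add hz hθ0 hθ1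
  have hαz : 0 < α * z := by positivity
  rw [Real.Gamma_add_one hαz.ne']
  have hGz : 0 < Gamma z := Gamma_pos_of_pos hz
  have hGαz : 0 < Gamma (α * z) := Gamma_pos_of_pos hαz
  have hS := S1_add_le (α := α) hs (m + 1)
  have h1 := S1_nonneg α ρ (m + 1)
  have h3 := S2_nonneg α ρ n
  have h4 := D_nonneg α m n
  have hpi := Real.pi_pos
  have hzρ : ρ ≤ z := by linarith
  have key : Gamma (z + 1 / α) / (α * z * Gamma (α * z)) ≤
      ((1 / ρ + 1) / α) * (Gamma z / Gamma (α * z)) := by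
    have e1 : Gamma (z + 1 / α) ≤ (1 + z) * Gamma z :=
      hG.trans (mul_le_mul_of_nonneg_right hr hGz.le)
    calc Gamma (z + 1 / α) / (α * z * Gamma (α * z)) ≤
        ((1 + z) * Gamma z) / (α * z * Gamma (α * z)) := by gcongr
      _ = ((1 / z + 1) / α) * (Gamma z / Gamma (α * z)) := by field_simp
      _ ≤ ((1 / ρ + 1) / α) * (Gamma z / Gamma (α * z)) := by gcongr
  have hfin : Gamma (z + 1 / α) / (α * z * Gamma (α * z)) / π * S1 α (ρ + 1 / α) (m + 1) *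
      S2 α ρ n * D α m n ≤ (((1 / ρ + 1) / α) * (Gamma z / Gamma (α * z))) / π *
        (|sin (π * ρ)|⁻¹ * S1 α ρ (m + 1)) * S2 α ρ n * D α m n := by
    have : 0 ≤ S1 α (ρ + 1 / α) (m + 1) := S1_nonneg _ _ _
    gcongr
  refine hfin.trans (le_of_eq ?_)
  ring

lemma TA_sub {α ρ c : ℝ} (hα : 1 < α) (hα2 : α < 2) (hρ : 1 < ρ) (hc : 0 < c)
    (h : ∀ n : ℕ, c / ((n : ℝ) + 1) ^ 2 ≤ |sin (π * (α * (ρ - 1 + n)))|) (m n : ℕ) :
    TA α (ρ - 1) m n ≤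
      ((ρ - 1)⁻¹ * (α * (ρ - 1) + α + 1) ^ 2 * c⁻¹) * ((m : ℝ) + n + 1) ^ 4 * TA α ρ m n := by
  have hα0 : 0 < α := by linarith
  have hm : (0 : ℝ) ≤ m := by positivity
  have hn : (0 : ℝ) ≤ n := by positivity
  have hmα : 0 ≤ (m : ℝ) / α := by positivity
  have hρ1 : 0 < ρ - 1 := by linarith
  unfold TA
  rw [S1_sub_one]
  have hz1 : 0 < ρ - 1 + n + m / α := by positivity
  set w := ρ - 1 + n + m / α with hw
  have hz : ρ + n + m / α = w + 1 := by rw [hw]; ring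
  have hαz : α * (ρ + n + m / α) = α * w + α := by rw [hz]; ring
  rw [hαz, hz, Real.Gamma_add_one hz1.ne']
  have hαw : 0 < α * w := by positivity
  have hGw : 0 < Gamma w := Gamma_pos_of_pos hz1
  have hGαw : 0 < Gamma (α * w) := Gamma_pos_of_pos hαw
  have hGαw' : 0 < Gamma (α * w + α) := Gamma_pos_of_pos (by positivity)
  have key : Gamma (α * w + α) ≤ (α * w + 1) ^ 2 * Gamma (α * w) := by
    have e1 : α * w + α = (α * w + (α - 1)) + 1 := by ring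
    rw [e1, Real.Gamma_add_one (by linarith : α * w + (α - 1) ≠ 0).symm.symm]
    have e2 := Gamma_add_le hαw (show 0 < α - 1 by linarith) (show α - 1 < 1 by linarith)
    have e3 := rpow_le_one_add hαw (show 0 < α - 1 by linarith) (show α - 1 < 1 by linarith)
    have e4 : Gamma (α * w + (α - 1)) ≤ (1 + α * w) * Gamma (α * w) :=
      e2.trans (mul_le_mul_of_nonneg_right e3 hGαw.le)
    calc (α * w + (α - 1)) * Gamma (α * w + (α - 1)) ≤
        (α * w + 1) * ((1 + α * w) * Gamma (α * w)) := by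
          apply mul_le_mul _ e4 _ (by positivity)
          · linarith
          · exact (Gamma_pos_of_pos (by linarith)).le
      _ = _ := by ring
  have hS2 := S2_sub_le hc h n
  have h1 := S1_nonneg α ρ (m + 1)
  have h3 := S2_nonneg α ρ n
  have h4 := D_nonneg α m n
  have hpi := Real.pi_pos
  have hwρ : ρ - 1 ≤ w := by rw [hw]; linarith
  have key2 : Gamma w / Gamma (α * w) ≤
      (ρ - 1)⁻¹ * (α * w + 1) ^ 2 * (w * Gamma w / Gamma (α * w + α)) := by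
    have e1 : (1 : ℝ) ≤ (ρ - 1)⁻¹ * w := by
      rw [inv_mul_eq_div, le_div_iff₀ hρ1]
      linarith
    have e2 : (Gamma (α * w))⁻¹ ≤ (α * w + 1) ^ 2 * (Gamma (α * w + α))⁻¹ := by
      rw [← div_eq_mul_inv, le_div_iff₀ hGαw', inv_mul_eq_div, div_le_iff₀ hGαw]
      exact key
    calc Gamma w / Gamma (α * w) = 1 * (Gamma w * (Gamma (α * w))⁻¹) := by ring
      _ ≤ ((ρ - 1)⁻¹ * w) * (Gamma w * ((α * w + 1) ^ 2 * (Gamma (α * w + α))⁻¹)) := by
        gcongr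
      _ = _ := by ring
  have key3 : α * w + 1 ≤ (α * (ρ - 1) + α + 1) * ((m : ℝ) + n + 1) := by
    have e1 : α * w = α * (ρ - 1) + α * n + m := by
      rw [hw]
      field_simp
    rw [e1]
    have f1 : 0 ≤ α * (ρ - 1) := by positivity
    nlinarith [mul_nonneg f1 hm, mul_nonneg f1 hn, mul_nonneg hα0.le hm]
  have key4 : (α * w + 1) ^ 2 ≤ (α * (ρ - 1) + α + 1) ^ 2 * ((m : ℝ) + n + 1) ^ 2 := by
    rw [← mul_pow]
    exact pow_le_pow_left₀ (by positivity) key3 2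
  have key5 : ((n : ℝ) + 1) ^ 2 ≤ ((m : ℝ) + n + 1) ^ 2 :=
    pow_le_pow_left₀ (by positivity) (by linarith) 2
  have hfin : Gamma w / Gamma (α * w) / π * S1 α ρ (m + 1) * S2 α (ρ - 1) n * D α m n ≤
      ((ρ - 1)⁻¹ * ((α * (ρ - 1) + α + 1) ^ 2 * ((m : ℝ) + n + 1) ^ 2) *
        (w * Gamma w / Gamma (α * w + α))) / π * S1 α ρ (m + 1) *
        (c⁻¹ * ((m : ℝ) + n + 1) ^ 2 * S2 α ρ n) * D α m n := by
    have : 0 ≤ S2 α (ρ - 1) n := S2_nonneg _ _ _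
    have f2 : Gamma w / Gamma (α * w) ≤ (ρ - 1)⁻¹ * ((α * (ρ - 1) + α + 1) ^ 2 *
        ((m : ℝ) + n + 1) ^ 2) * (w * Gamma w / Gamma (α * w + α)) :=
      key2.trans (by gcongr)
    have f3 : S2 α (ρ - 1) n ≤ c⁻¹ * ((m : ℝ) + n + 1) ^ 2 * S2 α ρ n :=
      hS2.trans (by gcongr)
    gcongr
  refine hfin.trans (le_of_eq ?_)
  ring

end Pool.Agent.Lib.MP_8ec8f8_pr
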