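import Mathlib
import Pool.Agent.Lib.MP_8ec8f8_pr.Coeff

/-!
Almost every `ρ` is good (Borel-Cantelli).
-/

set_option autoImplicit false

open Real MeasureTheory Set Filter

namespace Pool.Agent.Lib.MP_8ec8f8_pr

lemma two_norm_le_abs_sin (u : ℝ) : 2 * ‖(u : UnitAddCircle)‖ ≤ |sin (π * u)| := by
  rw [UnitAddCircle.norm_eq]
  have h1 : |sin (π * u)| = |sin (π * (u - round u))| := by
    have : π * (u - round u) = π * u - (round u : ℤ) * π := by ring
    rw [this, Real.sin_sub_int_mul_pi, abs_mul, abs_zpow, abs_neg, abs_one, one_zpow, one_mul]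
  rw [h1]
  have h2 : |u - round u| ≤ 1 / 2 := abs_sub_round u
  have h3 : |π * (u - round u)| ≤ π / 2 := by
    rw [abs_mul, abs_of_pos Real.pi_pos]
    nlinarith [Real.pi_pos]
  have h4 := Real.mul_abs_le_abs_sin h3
  rw [abs_mul, abs_of_pos Real.pi_pos] at h4
  calc 2 * |u - round u| = 2 / π * (π * |u - round u|) := by
        have := Real.pi_ne_zero
        field_simp
    _ ≤ _ := h4

lemma ae_circle (α : ℝ) : ∀ᵐ x : UnitAddCircle, ∀ᶠ n : ℕ in atTop,
    1 / ((n : ℝ) + 1) ^ 2 ≤ ‖x + ((α * n : ℝ) : UnitAddCircle)‖ := by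
  have hsum : (∑' n : ℕ, volume (Metric.closedBall (-((α * n : ℝ) : UnitAddCircle))
      (1 / ((n : ℝ) + 1) ^ 2))) ≠ ⊤ := by
    have hle : ∀ n : ℕ, volume (Metric.closedBall (-((α * n : ℝ) : UnitAddCircle))
      (1 / ((n : ℝ) + 1) ^ 2)) ≤ ENNReal.ofReal (2 * (1 / ((n : ℝ) + 1) ^ 2)) := by
      intro n
      rw [AddCircle.volume_closedBall]
      exact ENNReal.ofReal_le_ofReal (min_le_right _ _)
    have hs : Summable fun n : ℕ => 2 * (1 / ((n : ℝ) + 1) ^ 2) := by
      apply Summable.mul_left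
      have := (summable_nat_add_iff 1).2 (Real.summable_one_div_nat_pow.2 (by norm_num : 1 < 2))
      simpa using this
    refine ne_top_of_le_ne_top ?_ (ENNReal.tsum_le_tsum hle)
    rw [← ENNReal.ofReal_tsum_of_nonneg (fun n => by positivity) hs]
    exact ENNReal.ofReal_ne_top
  filter_upwards [ae_eventually_notMem hsum] with x hx
  filter_upwards [hx] with n hn
  rw [Metric.mem_closedBall, not_le, dist_eq_norm, sub_neg_eq_add] at hn
  exact hn.le

lemma ae_real_of_ae_circle {p : UnitAddCircle → Prop} (h : ∀ᵐ x : UnitAddCircle, p x) :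
    ∀ᵐ u : ℝ, p (u : UnitAddCircle) := by
  have h1 : ∀ n : ℤ, ∀ᵐ u : ℝ ∂((volume : Measure ℝ).restrict (Ioc (n : ℝ) (n + 1))),
      p (u : UnitAddCircle) :=
    fun n => (UnitAddCircle.measurePreserving_mk (n : ℝ)).quasiMeasurePreserving.ae h
  have h2 := (ae_restrict_iUnion_iff (μ := (volume : Measure ℝ))
    (fun n : ℤ => Ioc (n : ℝ) (n + 1)) (fun u : ℝ => p (u : UnitAddCircle))).2 h1
  rw [iUnion_Ioc_intCast, Measure.restrict_univ] at h2
  exact h2

lemma exists_lower_bound {f : ℕ → ℝ} {b : ℝ} (hb : 0 < b) (h : ∀ᶠ n in atTop, b ≤ f n)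
    (hpos : ∀ n, 0 < f n) : ∃ c : ℝ, 0 < c ∧ ∀ n, c ≤ f n := by
  obtain ⟨N, hN⟩ := eventually_atTop.1 h
  have key : ∀ M : ℕ, ∃ c : ℝ, 0 < c ∧ ∀ n, n < M → c ≤ f n := by
    intro M
    induction M with
    | zero => exact ⟨1, one_pos, fun n hn => absurd hn (by omega)⟩
    | succ M ih =>
      obtain ⟨c, hc, hc'⟩ := ih
      refine ⟨min c (f M), lt_min hc (hpos M), fun n hn => ?_⟩
      rcases Nat.lt_succ_iff_lt_or_eq.1 hn with h | h
      · exact (min_le_left _ _).trans (hc' n h)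
      · rw [h]; exact min_le_right _ _
  obtain ⟨c, hc, hc'⟩ := key N
  refine ⟨min c b, lt_min hc hb, fun n => ?_⟩
  rcases lt_or_ge n N with h | h
  · exact (min_le_left _ _).trans (hc' n h)
  · exact (min_le_right _ _).trans (hN n h)

lemma ae_good {α : ℝ} (hα : 0 < α) : ∀ᵐ ρ : ℝ, Good α ρ := by
  -- in terms of `u = α (ρ - 1)`
  have h1 : ∀ᵐ u : ℝ, ∀ᶠ n : ℕ in atTop,
      1 / ((n : ℝ) + 1) ^ 2 ≤ ‖((u : ℝ) : UnitAddCircle) + ((α * n : ℝ) : UnitAddCircle)‖ :=
    ae_real_of_ae_circle (ae_circle α)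
  have h2 : ∀ᵐ u : ℝ, ∀ n : ℕ, sin (π * (u + α * n)) ≠ 0 := by
    have hc : (⋃ n : ℕ, ⋃ k : ℤ, {(k : ℝ) - α * n}).Countable :=
      countable_iUnion fun n => countable_iUnion fun k => countable_singleton _
    have := hc.ae_notMem (volume : Measure ℝ)
    filter_upwards [this] with u hu n hs
    apply hu
    rw [Real.sin_eq_zero_iff] at hs
    obtain ⟨k, hk⟩ := hs
    simp only [mem_iUnion, mem_singleton_iff]
    refine ⟨n, k, ?_⟩
    have hpi := Real.pi_ne_zero
    have : (k : ℝ) = u + α * n := by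
      apply mul_left_cancel₀ hpi
      linarith
    linarith
  have h3 : ∀ᵐ u : ℝ, ∃ c : ℝ, 0 < c ∧ ∀ n : ℕ,
      c / ((n : ℝ) + 1) ^ 2 ≤ |sin (π * (u + α * n))| := by
    filter_upwards [h1, h2] with u hu1 hu2
    obtain ⟨c, hc, hc'⟩ := exists_lower_bound (f := fun n : ℕ =>
      |sin (π * (u + α * n))| * ((n : ℝ) + 1) ^ 2) (b := 2) two_pos
      (by
        filter_upwards [hu1] with n hn
        have h := two_norm_le_abs_sin (u + α * n)
        have hn' : 1 / ((n : ℝ) + 1) ^ 2 ≤ ‖((u + α * n : ℝ) : UnitAddCircle)‖ := by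
          rw [AddCircle.coe_add]
          exact hn
        have hp : (0 : ℝ) < ((n : ℝ) + 1) ^ 2 := by positivity
        rw [div_le_iff₀ hp] at hn'
        nlinarith)
      (fun n => mul_pos (abs_pos.2 (hu2 n)) (by positivity))
    refine ⟨c, hc, fun n => ?_⟩
    rw [div_le_iff₀ (by positivity)]
    exact hc' n
  -- pull back by `ρ ↦ α (ρ - 1)`
  have hq : Measure.QuasiMeasurePreserving (fun ρ : ℝ => α * (ρ - 1)) volume volume := by
    have e1 : Measure.QuasiMeasurePreserving (fun ρ : ℝ => ρ - 1) volume volume :=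
      (measurePreserving_sub_right volume (1 : ℝ)).quasiMeasurePreserving
    have e2 : Measure.QuasiMeasurePreserving (fun ρ : ℝ => α * ρ) volume volume := by
      refine ⟨measurable_const_mul α, ?_⟩
      rw [Real.map_volume_mul_left hα.ne']
      exact Measure.smul_absolutelyContinuous
    exact e2.comp e1
  have h4 := hq.ae h3
  filter_upwards [h4] with ρ hρ
  obtain ⟨c, hc, hc'⟩ := hρ
  refine ⟨c, hc, fun n => ?_⟩
  have := hc' n
  have e : α * (ρ - 1) + α * n = α * (ρ - 1 + n) := by ring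
  rwa [e] at this

end Pool.Agent.Lib.MP_8ec8f8_pr
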