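import Mathlib
import Pool.Agent.Lib.MP_8ec8f8_pr.Good

/-!
The zero-one law: invariance of the convergence set under an irrational rotation.
-/

set_option autoImplicit false

open Real MeasureTheory Set Filter

namespace Pool.Agent.Lib.MP_8ec8f8_pr

/-- summability of `t_{m,n} y^(m + α n)` for every `y > 0` -/
def PS (α : ℝ) (t : ℕ → ℕ → ℝ) : Prop :=
  ∀ y : ℝ, 0 < y → Summable fun p : ℕ × ℕ => t p.1 p.2 * y ^ ((p.1 : ℝ) + α * p.2)

lemma PS_transfer {α : ℝ} (hα : 0 < α) {t t' : ℕ → ℕ → ℝ} (ht : ∀ m n, 0 ≤ t m n)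
    (ht' : ∀ m n, 0 ≤ t' m n) {K : ℝ} (hK : 0 ≤ K) {d : ℕ}
    (h : ∀ m n, t' m n ≤ K * ((m : ℝ) + n + 1) ^ d * t m n) (hP : PS α t) : PS α t' := by
  intro y hy
  set κ := 1 + 1 / α with hκ
  have h1 := (hP (Real.exp κ * y) (by positivity)).mul_left (K * (d.factorial * Real.exp 1))
  refine Summable.of_nonneg_of_le (fun p => mul_nonneg (ht' _ _) (Real.rpow_nonneg hy.le _))
    (fun p => ?_) h1
  obtain ⟨m, n⟩ := p
  simp only
  have hm : (0 : ℝ) ≤ m := by positivity
  have hn : (0 : ℝ) ≤ n := by positivity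
  have e1 : ((m : ℝ) + n + 1) ^ d ≤ d.factorial * Real.exp ((m : ℝ) + n + 1) := by
    have := Real.pow_div_factorial_le_exp ((m : ℝ) + n + 1) (by positivity) d
    rw [div_le_iff₀ (by positivity)] at this
    linarith
  have e2 : Real.exp ((m : ℝ) + n + 1) ≤ Real.exp 1 * Real.exp (κ * ((m : ℝ) + α * n)) := by
    rw [← Real.exp_add]
    apply Real.exp_le_exp.2
    have : κ * ((m : ℝ) + α * n) = m + α * n + m / α + n := by
      rw [hκ]
      field_simp
      ring
    rw [this]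
    have : 0 ≤ α * (n : ℝ) := by positivity
    have : 0 ≤ (m : ℝ) / α := by positivity
    linarith
  have e3 : (Real.exp κ * y) ^ ((m : ℝ) + α * n) =
      Real.exp (κ * ((m : ℝ) + α * n)) * y ^ ((m : ℝ) + α * n) := by
    rw [Real.mul_rpow (Real.exp_pos _).le hy.le, ← Real.exp_mul]
  have hy' : 0 ≤ y ^ ((m : ℝ) + α * n) := Real.rpow_nonneg hy.le _
  have h0 := ht m n
  calc t' m n * y ^ ((m : ℝ) + α * n)
      ≤ (K * ((m : ℝ) + n + 1) ^ d * t m n) * y ^ ((m : ℝ) + α * n) :=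
        mul_le_mul_of_nonneg_right (h m n) hy'
    _ ≤ (K * (d.factorial * (Real.exp 1 * Real.exp (κ * ((m : ℝ) + α * n)))) * t m n) *
        y ^ ((m : ℝ) + α * n) := by
        have : ((m : ℝ) + n + 1) ^ d ≤
          d.factorial * (Real.exp 1 * Real.exp (κ * ((m : ℝ) + α * n))) :=
          e1.trans (mul_le_mul_of_nonneg_left e2 (by positivity))
        gcongr
    _ = K * (d.factorial * Real.exp 1) * (t m n * (Real.exp κ * y) ^ ((m : ℝ) + α * n)) := by
        rw [e3]; ring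

lemma PS_congr {α : ℝ} {t t' : ℕ → ℕ → ℝ} (h : ∀ m n, t m n = t' m n) : PS α t ↔ PS α t' := by
  have : t = t' := by funext m n; exact h m n
  rw [this]

lemma conv_iff_gt {α ρ : ℝ} (hα : 1 < α) (hρ : 0 < ρ) :
    ConvergesAbsolutely α ρ ↔ PS α (TA α ρ) := by
  have hα0 : 0 < α := by linarith
  unfold ConvergesAbsolutely PS
  apply forall_congr'
  intro x
  apply imp_congr_right
  intro hx
  have hc : x ^ (α * ρ - 1) ≠ 0 := (Real.rpow_pos_of_pos hx _).ne'
  rw [← summable_mul_left_iff (f := fun p : ℕ × ℕ => TA α ρ p.1 p.2 * x ^ ((p.1 : ℝ) + α * p.2)) hc]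
  apply iff_of_eq
  congr 1
  funext p
  unfold seriesTerm
  rw [if_neg (not_lt.2 hα.le), abs_mul, abs_mul, abs_of_pos (Real.rpow_pos_of_pos hx _),
    abs_of_pos (Real.rpow_pos_of_pos hx _), abs_aCoeff hα0 hρ]
  rfl

lemma conv_iff_lt {α ρ : ℝ} (hα0 : 0 < α) (hα : α < 1) (hρ : 0 < ρ)
    (hZ : ∀ m n : ℕ, Gamma (1 - ρ - (n + 1 : ℕ) - m / α) ≠ 0) :
    ConvergesAbsolutely α ρ ↔ PS α (TB α ρ) := by
  have key : ∀ x : ℝ, 0 < x → ((Summable fun p : ℕ × ℕ => |seriesTerm α ρ x p.1 p.2|) ↔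
      Summable fun p : ℕ × ℕ => TB α ρ p.1 p.2 * x⁻¹ ^ ((p.1 : ℝ) + α * p.2)) := by
    intro x hx
    have hc : x ^ (-1 - α) ≠ 0 := (Real.rpow_pos_of_pos hx _).ne'
    rw [← summable_mul_left_iff
      (f := fun p : ℕ × ℕ => TB α ρ p.1 p.2 * x⁻¹ ^ ((p.1 : ℝ) + α * p.2)) hc]
    apply iff_of_eq
    congr 1
    funext p
    unfold seriesTerm
    rw [if_pos hα, abs_mul, abs_mul, abs_of_pos (Real.rpow_pos_of_pos hx _),
      abs_of_pos (Real.rpow_pos_of_pos hx _), abs_bCoeff hα0 hρ _ _ (hZ _ _)]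
    have : x ^ (-(p.1 : ℝ) - α * p.2) = x⁻¹ ^ ((p.1 : ℝ) + α * p.2) := by
      rw [Real.inv_rpow hx.le, ← Real.rpow_neg hx.le]
      congr 1
      ring
    rw [this]
    rfl
  unfold ConvergesAbsolutely PS
  constructor
  · intro h y hy
    have := (key y⁻¹ (inv_pos.2 hy)).1 (h _ (inv_pos.2 hy))
    rwa [inv_inv] at this
  · intro h x hx
    exact (key x hx).2 (h _ (inv_pos.2 hx))

/-- the closed-form version of the convergence condition -/
noncomputable def TT (α ρ : ℝ) : ℕ → ℕ → ℝ := if α < 1 then TB α ρ else TA α ρ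

def Q (α ρ : ℝ) : Prop := PS α (TT α ρ)

lemma TT_nonneg {α ρ : ℝ} (hα : 0 < α) (hρ : 0 < ρ) (m n : ℕ) : 0 ≤ TT α ρ m n := by
  unfold TT
  split_ifs
  · exact TB_nonneg _ _ _ _
  · exact TA_nonneg hα hρ _ _

lemma Q_add {α ρ : ℝ} (hα : 0 < α) (hα1 : α ≠ 1) (hρ : 0 < ρ) (hs : sin (π * ρ) ≠ 0)
    (h : Q α ρ) : Q α (ρ + 1 / α) := by
  have hρ' : 0 < ρ + 1 / α := by positivity
  unfold Q at *
  rcases lt_or_gt_of_ne hα1 with h1 | h1
  · refine PS_transfer hα (TT_nonneg hα hρ) (TT_nonneg hα hρ')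
      (K := |sin (π * ρ)|⁻¹) (d := 0) (by positivity) (fun m n => ?_) h
    unfold TT
    rw [if_pos h1, if_pos h1, pow_zero, mul_one]
    exact TB_add hα.ne' hs m n
  · refine PS_transfer hα (TT_nonneg hα hρ) (TT_nonneg hα hρ')
      (K := (1 / ρ + 1) / α * |sin (π * ρ)|⁻¹) (d := 0) (by positivity) (fun m n => ?_) h
    unfold TT
    rw [if_neg (not_lt.2 h1.le), if_neg (not_lt.2 h1.le), pow_zero, mul_one]
    exact TA_add h1 hρ hs m n

lemma Q_sub {α ρ : ℝ} (hα : 0 < α) (hα1 : α ≠ 1) (hα2 : α < 2) (hρ : 1 < ρ) (hg : Good α ρ)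
    (h : Q α ρ) : Q α (ρ - 1) := by
  have hρ0 : 0 < ρ := by linarith
  have hρ' : 0 < ρ - 1 := by linarith
  obtain ⟨c, hc, hc'⟩ := hg
  unfold Q at *
  rcases lt_or_gt_of_ne hα1 with h1 | h1
  · refine PS_transfer hα (TT_nonneg hα hρ0) (TT_nonneg hα hρ')
      (K := 4 * c⁻¹) (d := 4) (by positivity) (fun m n => ?_) h
    unfold TT
    rw [if_pos h1, if_pos h1]
    exact TB_sub hc hc' m n
  · refine PS_transfer hα (TT_nonneg hα hρ0) (TT_nonneg hα hρ')
      (K := (ρ - 1)⁻¹ * (α * (ρ - 1) + α + 1) ^ 2 * c⁻¹) (d := 4) (by positivity)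
      (fun m n => ?_) h
    unfold TT
    rw [if_neg (not_lt.2 h1.le), if_neg (not_lt.2 h1.le)]
    exact TA_sub h1 hα2 hρ hc hc' m n

lemma Q_step {α r : ℝ} (hα : 0 < α) (hα1 : α ≠ 1) (hα2 : α < 2) (hr : 0 < r)
    (hs : sin (π * r) ≠ 0) (hg : ∀ i : ℕ, Good α (r + 1 / α - i)) (hQ : Q α r) (i : ℕ)
    (hi : 0 < r + 1 / α - i) : Q α (r + 1 / α - i) := by
  induction i with
  | zero => simpa using Q_add hα hα1 hr hs hQ
  | succ k ih =>
    have hk : 1 < r + 1 / α - k := by
      push_cast at hi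
      linarith
    have h1 := Q_sub hα hα1 hα2 hk (hg k) (ih (by linarith))
    have e : r + 1 / α - ((k + 1 : ℕ) : ℝ) = r + 1 / α - k - 1 := by
      push_cast
      ring
    rw [e]
    exact h1

/-- measurability -/
lemma measurableSet_Q {α : ℝ} (hα : 0 < α) : MeasurableSet {ρ : ℝ | 0 < ρ ∧ Q α ρ} := by
  -- measurable version of the coefficients
  let F : ℕ × ℕ → ℝ → ℝ := fun p => (Ioi (0 : ℝ)).piecewise (fun ρ => TT α ρ p.1 p.2) (fun _ => 0)
  have hF : ∀ p, Measurable (F p) := by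
    intro p
    apply ContinuousOn.measurable_piecewise _ continuousOn_const measurableSet_Ioi
    have hS1 : ∀ k, Continuous fun ρ : ℝ => S1 α ρ k := by
      intro k
      unfold S1
      fun_prop
    have hS2 : ∀ k, Continuous fun ρ : ℝ => S2 α ρ k := by
      intro k
      unfold S2
      fun_prop
    unfold TT
    split_ifs with h
    · apply Continuous.continuousOn
      unfold TB
      have := hS1 p.1
      have := hS2 (p.2 + 1)
      fun_prop
    · unfold TA
      have hG : ContinuousOn Real.Gamma (Ioi 0) := by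
        intro x hx
        apply ContinuousAt.continuousWithinAt
        apply DifferentiableAt.continuousAt (𝕜 := ℝ)
        apply Real.differentiableAt_Gamma
        intro m hm
        have : (0 : ℝ) < x := hx
        have : (0 : ℝ) ≤ m := by positivity
        linarith
      have hG1 : ContinuousOn (fun ρ : ℝ => Gamma (ρ + p.2 + p.1 / α)) (Ioi 0) := by
        apply hG.comp (by fun_prop)
        intro x hx
        have : (0 : ℝ) < x := hx
        simp only [mem_Ioi]
        positivity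
      have hG2 : ContinuousOn (fun ρ : ℝ => Gamma (α * (ρ + p.2 + p.1 / α))) (Ioi 0) := by
        apply hG.comp (by fun_prop)
        intro x hx
        have : (0 : ℝ) < x := hx
        simp only [mem_Ioi]
        positivity
      have h1 := (hS1 (p.1 + 1)).continuousOn (s := Ioi (0 : ℝ))
      have h2 := (hS2 p.2).continuousOn (s := Ioi (0 : ℝ))
      apply ContinuousOn.mul _ continuousOn_const
      apply ContinuousOn.mul _ h2
      apply ContinuousOn.mul _ h1
      apply ContinuousOn.div_const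
      apply ContinuousOn.div hG1 hG2
      intro x hx
      have : (0 : ℝ) < x := hx
      exact (Gamma_pos_of_pos (by positivity)).ne'
  have hFnn : ∀ p ρ, 0 ≤ F p ρ := by
    intro p ρ
    by_cases h : ρ ∈ Ioi (0 : ℝ)
    · simp only [F, Set.piecewise_eq_of_mem _ _ _ h]
      exact TT_nonneg hα h _ _
    · simp only [F, Set.piecewise_eq_of_notMem _ _ _ h]
      exact le_rfl
  have hset : {ρ : ℝ | 0 < ρ ∧ Q α ρ} = Ioi 0 ∩ ⋂ k : ℕ,
      {ρ : ℝ | ∑' p : ℕ × ℕ, ENNReal.ofReal (F p ρ * ((k : ℝ) + 1) ^ ((p.1 : ℝ) + α * p.2)) ≠ ⊤} := by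
    ext ρ
    simp only [mem_ofPred_eq, mem_inter_iff, mem_Ioi, mem_iInter]
    apply and_congr_right
    intro hρ
    have hFρ : ∀ p, F p ρ = TT α ρ p.1 p.2 := fun p => by
      simp only [F]
      exact Set.piecewise_eq_of_mem _ _ _ hρ
    have hsum : ∀ y : ℝ, 0 < y →
        ((∑' p : ℕ × ℕ, ENNReal.ofReal (F p ρ * y ^ ((p.1 : ℝ) + α * p.2)) ≠ ⊤) ↔
        Summable fun p : ℕ × ℕ => TT α ρ p.1 p.2 * y ^ ((p.1 : ℝ) + α * p.2)) := by
      intro y hy
      simp only [hFρ]
      constructor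
      · intro h
        have := ENNReal.summable_toReal h
        refine this.congr fun p => ?_
        rw [ENNReal.toReal_ofReal]
        exact mul_nonneg (TT_nonneg hα hρ _ _) (Real.rpow_nonneg hy.le _)
      · intro h
        rw [← ENNReal.ofReal_tsum_of_nonneg _ h]
        · exact ENNReal.ofReal_ne_top
        · intro p
          exact mul_nonneg (TT_nonneg hα hρ _ _) (Real.rpow_nonneg hy.le _)
    constructor
    · intro h k
      exact (hsum _ (by positivity)).2 (h _ (by positivity))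
    · intro h y hy
      obtain ⟨k, hk⟩ := exists_nat_gt y
      have := (hsum _ (by positivity : (0 : ℝ) < (k : ℝ) + 1)).1 (h k)
      refine Summable.of_nonneg_of_le (fun p => mul_nonneg (TT_nonneg hα hρ _ _)
        (Real.rpow_nonneg hy.le _)) (fun p => ?_) this
      apply mul_le_mul_of_nonneg_left _ (TT_nonneg hα hρ _ _)
      apply Real.rpow_le_rpow hy.le (by linarith)
      positivity
  rw [hset]
  apply measurableSet_Ioi.inter
  apply MeasurableSet.iInter
  intro k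
  have hm : Measurable fun ρ : ℝ =>
      ∑' p : ℕ × ℕ, ENNReal.ofReal (F p ρ * ((k : ℝ) + 1) ^ ((p.1 : ℝ) + α * p.2)) := by
    apply Measurable.tsum
    intro p
    exact ((hF p).mul_const _).ennreal_ofReal
  exact (hm (measurableSet_singleton ⊤)).compl

end Pool.Agent.Lib.MP_8ec8f8_pr
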