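import Mathlib
import Pool.Agent.Lib.MP_8ec8f8_pr.Defs
import Pool.Agent.Lib.MP_8ec8f8_pr.Main

/-!
Zero-one law for the absolute convergence of the double series attached to the density of the
supremum of a stable process.  The definitions `aCoeff`, `bCoeff`, `seriesTerm`,
`ConvergesAbsolutely` and `convSet` are in `Pool.Agent.Lib.MP_8ec8f8_pr.Defs`.
-/

set_option autoImplicit false

open Real MeasureTheory Set Filter

namespace Pool.Agent.Lib.MP_8ec8f8_pr

/-- the representative in `(0,1]` -/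
noncomputable def rep (x : UnitAddCircle) : ℝ := (AddCircle.equivIoc (1 : ℝ) 0 x : ℝ)

lemma rep_mem (x : UnitAddCircle) : rep x ∈ Ioc (0 : ℝ) 1 := by
  have := (AddCircle.equivIoc (1 : ℝ) 0 x).2
  exact ⟨this.1, this.2.trans (by norm_num)⟩

lemma coe_rep (x : UnitAddCircle) : ((rep x : ℝ) : UnitAddCircle) = x := AddCircle.coe_equivIoc

lemma rep_coe {y : ℝ} (hy : y ∈ Ioc (0 : ℝ) 1) : rep (y : UnitAddCircle) = y := by
  unfold rep
  apply AddCircle.equivIoc_coe_of_mem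
  rw [zero_add]
  exact hy

lemma measurable_rep : Measurable rep :=
  measurable_subtype_coe.comp (AddCircle.measurableEquivIoc (1 : ℝ) 0).measurable

lemma ae_rep {R : ℝ → Prop} (h : ∀ᵐ r : ℝ, R r) : ∀ᵐ x : UnitAddCircle, R (rep x) := by
  have h0 : volume {r : ℝ | ¬ R r} = 0 := h
  obtain ⟨N, hN1, hN2, hN3⟩ := exists_measurable_superset_of_null h0
  have hm : MeasurableSet (rep ⁻¹' N) := measurable_rep hN2
  have h1 : volume (rep ⁻¹' N) =
      volume ((QuotientAddGroup.mk : ℝ → UnitAddCircle) ⁻¹' (rep ⁻¹' N) ∩ Ioc (0 : ℝ) (0 + 1)) :=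
    AddCircle.add_projection_respects_measure 1 0 hm
  have h2 : volume (rep ⁻¹' N) = 0 := by
    rw [h1]
    apply measure_mono_null _ hN3
    rintro ρ ⟨ha, hb⟩
    rw [zero_add] at hb
    have hc : rep ((ρ : ℝ) : UnitAddCircle) ∈ N := ha
    rwa [rep_coe hb] at hc
  refine measure_mono_null ?_ h2
  intro x hx
  exact hN1 hx

/-- the convergence set on the circle -/
def S (α : ℝ) : Set UnitAddCircle := {x | Q α (rep x)}

lemma measurableSet_S {α : ℝ} (hα : 0 < α) : MeasurableSet (S α) := by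
  have h := measurable_rep (measurableSet_Q hα)
  have : S α = rep ⁻¹' {ρ : ℝ | 0 < ρ ∧ Q α ρ} := by
    ext x
    simp only [S, mem_ofPred_eq, mem_preimage]
    exact ⟨fun h => ⟨(rep_mem x).1, h⟩, fun h => h.2⟩
  rw [this]
  exact h

lemma ae_good_shift {α : ℝ} (hα : 0 < α) (a : ℝ) : ∀ᵐ r : ℝ, ∀ i : ℕ, Good α (r + a - i) := by
  rw [ae_all_iff]
  intro i
  have h := (measurePreserving_add_right (volume : Measure ℝ) (a - i)).quasiMeasurePreserving.ae
    (ae_good hα)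
  filter_upwards [h] with r hr
  have : r + a - i = r + (a - i) := by ring
  rw [this]
  exact hr

lemma S_le {α : ℝ} (hα : 0 < α) (hα1 : α ≠ 1) (hα2 : α < 2) :
    S α ≤ᵐ[volume] (fun x : UnitAddCircle => x + ((1 / α : ℝ) : UnitAddCircle)) ⁻¹' (S α) := by
  have hcount : ∀ᵐ r : ℝ, (∀ k : ℤ, r + 1 / α ≠ k) ∧ (∀ k : ℤ, r ≠ k) := by
    have hc1 : (⋃ k : ℤ, {(k : ℝ) - 1 / α}).Countable :=
      countable_iUnion fun k => countable_singleton _
    have hc2 : (⋃ k : ℤ, {(k : ℝ)}).Countable := countable_iUnion fun k => countable_singleton _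
    filter_upwards [hc1.ae_notMem (volume : Measure ℝ), hc2.ae_notMem (volume : Measure ℝ)]
      with r h1 h2
    constructor
    · intro k hk
      apply h1
      simp only [mem_iUnion, mem_singleton_iff]
      exact ⟨k, by linarith⟩
    · intro k hk
      apply h2
      simp only [mem_iUnion, mem_singleton_iff]
      exact ⟨k, hk⟩
  have hR : ∀ᵐ r : ℝ, ((∀ k : ℤ, r + 1 / α ≠ k) ∧ (∀ k : ℤ, r ≠ k)) ∧
      ∀ i : ℕ, Good α (r + 1 / α - i) := by
    filter_upwards [hcount, ae_good_shift hα (1 / α)] with r h1 h2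
    exact ⟨h1, h2⟩
  filter_upwards [ae_rep hR] with x hx hxS
  obtain ⟨⟨h1, h2⟩, h3⟩ := hx
  have hr := rep_mem x
  set r := rep x with hrdef
  have hQ : Q α r := hxS
  have hs : sin (π * r) ≠ 0 := by
    intro h
    rw [Real.sin_eq_zero_iff] at h
    obtain ⟨k, hk⟩ := h
    apply h2 k
    apply mul_left_cancel₀ Real.pi_ne_zero
    linarith
  have hαinv : 0 < 1 / α := by positivity
  have hfl : 0 ≤ ⌊r + 1 / α⌋ := Int.floor_nonneg.2 (by linarith [hr.1])
  obtain ⟨k, hk⟩ := Int.eq_ofNat_of_zero_le hfl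
  have hk' : (⌊r + 1 / α⌋ : ℝ) = (k : ℝ) := by rw [hk]; simp
  have hfr1 : r + 1 / α - k < 1 := by
    have := Int.lt_floor_add_one (r + 1 / α)
    rw [hk'] at this
    linarith
  have hfr0 : 0 < r + 1 / α - k := by
    have h4 := Int.floor_le (r + 1 / α)
    rw [hk'] at h4
    have h5 := h1 k
    have h6 : r + 1 / α ≠ (k : ℝ) := by simpa using h5
    have h7 : (k : ℝ) < r + 1 / α := lt_of_le_of_ne h4 (Ne.symm h6)
    linarith
  have hstep := Q_step hα hα1 hα2 hr.1 hs h3 hQ k hfr0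
  have hrep : rep (x + ((1 / α : ℝ) : UnitAddCircle)) = r + 1 / α - k := by
    have e : x + ((1 / α : ℝ) : UnitAddCircle) = ((r + 1 / α - k : ℝ) : UnitAddCircle) := by
      rw [AddCircle.coe_sub, AddCircle.coe_add, hrdef, coe_rep]
      have : ((k : ℝ) : UnitAddCircle) = 0 := by
        rw [AddCircle.coe_eq_zero_iff]
        exact ⟨k, by simp⟩
      rw [this, sub_zero]
    rw [e]
    exact rep_coe ⟨hfr0, hfr1.le⟩
  change Q α (rep (x + ((1 / α : ℝ) : UnitAddCircle)))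
  rw [hrep]
  exact hstep

lemma volume_S {α : ℝ} (hα : 0 < α) (hα2 : α < 2) (hirr : Irrational α) :
    volume (S α) = 0 ∨ volume (S α) = 1 := by
  have hα1 : α ≠ 1 := hirr.ne_one
  have hirr' : Irrational ((1 / α) / 1) := by
    rw [div_one, one_div]
    exact hirr.inv
  have hord : addOrderOf ((1 / α : ℝ) : UnitAddCircle) = 0 :=
    AddCircle.denseRange_zsmul_iff.1 (AddCircle.denseRange_zsmul_coe_iff.2 hirr')
  have herg : Ergodic (fun x : UnitAddCircle => x + ((1 / α : ℝ) : UnitAddCircle)) volume :=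
    AddCircle.ergodic_add_right.2 hord
  rcases herg.ae_empty_or_univ_of_ae_le_preimage (measurableSet_S hα).nullMeasurableSet
    (S_le hα hα1 hα2) with h | h
  · left
    rw [measure_congr h, measure_empty]
  · right
    rw [measure_congr h, UnitAddCircle.measure_univ]

/-- exceptional countable set -/
def Zset (α : ℝ) : Set ℝ := ⋃ m : ℕ, ⋃ n : ℕ, ⋃ k : ℕ, {1 - ((n + 1 : ℕ) : ℝ) - m / α + k}

lemma countable_Zset (α : ℝ) : (Zset α).Countable :=
  countable_iUnion fun _ => countable_iUnion fun _ => countable_iUnion fun _ =>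
    countable_singleton _

lemma conv_iff {α ρ : ℝ} (hα : 0 < α) (hα1 : α ≠ 1) (hρ : 0 < ρ) (hZ : ρ ∉ Zset α) :
    ConvergesAbsolutely α ρ ↔ Q α ρ := by
  unfold Q TT
  rcases lt_or_gt_of_ne hα1 with h1 | h1
  · rw [if_pos h1]
    apply conv_iff_lt hα h1 hρ
    intro m n
    apply Real.Gamma_ne_zero
    intro k hk
    apply hZ
    simp only [Zset, mem_iUnion, mem_singleton_iff]
    exact ⟨m, n, k, by linarith⟩
  · rw [if_neg (not_lt.2 h1.le)]
    exact conv_iff_gt h1 hρ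

lemma convSet_diff {α : ℝ} (hα : 0 < α) (hα1 : α ≠ 1) :
    convSet α \ Zset α = (Ioo 0 1 ∩ {ρ : ℝ | 0 < ρ ∧ Q α ρ}) \ Zset α := by
  ext ρ
  simp only [convSet, Set.mem_sdiff, mem_inter_iff, mem_ofPred_eq, mem_Ioo]
  constructor
  · rintro ⟨⟨h1, h2⟩, h3⟩
    exact ⟨⟨h1, h1.1, (conv_iff hα hα1 h1.1 h3).1 h2⟩, h3⟩
  · rintro ⟨⟨h1, _, h2⟩, h3⟩
    exact ⟨⟨h1, (conv_iff hα hα1 h1.1 h3).2 h2⟩, h3⟩

lemma measurableSet_convSet {α : ℝ} (hα : 0 < α) (hα1 : α ≠ 1) : MeasurableSet (convSet α) := by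
  have h : convSet α = (convSet α \ Zset α) ∪ (convSet α ∩ Zset α) := (sdiff_union_inter _ _).symm
  rw [h, convSet_diff hα hα1]
  apply MeasurableSet.union
  · exact (measurableSet_Ioo.inter (measurableSet_Q hα)).diff (countable_Zset α).measurableSet
  · exact ((countable_Zset α).mono inter_subset_right).measurableSet

lemma volume_convSet {α : ℝ} (hα : 0 < α) (hα1 : α ≠ 1) :
    volume (convSet α) = volume (S α) := by
  have h1 : volume (S α) =
      volume ((QuotientAddGroup.mk : ℝ → UnitAddCircle) ⁻¹' (S α) ∩ Ioc (0 : ℝ) (0 + 1)) :=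
    AddCircle.add_projection_respects_measure 1 0 (measurableSet_S hα)
  rw [h1]
  apply measure_congr
  have hz : ∀ᵐ ρ : ℝ, ρ ∉ Zset α := (countable_Zset α).ae_notMem _
  have h0 : ∀ᵐ ρ : ℝ, ρ ∉ ({1} : Set ℝ) := (countable_singleton (1 : ℝ)).ae_notMem _
  filter_upwards [hz, h0] with ρ hρ hρ1
  apply propext
  change ρ ∈ convSet α ↔
    ρ ∈ (QuotientAddGroup.mk : ℝ → UnitAddCircle) ⁻¹' (S α) ∩ Ioc (0 : ℝ) (0 + 1)
  simp only [zero_add, mem_inter_iff, mem_preimage, convSet, mem_ofPred_eq, mem_Ioo, mem_Ioc]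
  have hρ1' : ρ ≠ 1 := hρ1
  constructor
  · rintro ⟨⟨ha, hb⟩, hc⟩
    refine ⟨?_, ha, hb.le⟩
    change Q α (rep ((ρ : ℝ) : UnitAddCircle))
    rw [rep_coe ⟨ha, hb.le⟩]
    exact (conv_iff hα hα1 ha hρ).1 hc
  · rintro ⟨hc, ha, hb⟩
    have hb' : ρ < 1 := lt_of_le_of_ne hb hρ1'
    refine ⟨⟨ha, hb'⟩, ?_⟩
    have hc' : Q α (rep ((ρ : ℝ) : UnitAddCircle)) := hc
    rw [rep_coe ⟨ha, hb⟩] at hc'
    exact (conv_iff hα hα1 ha hρ).2 hc'

end Pool.Agent.Lib.MP_8ec8f8_pr
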